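import Pool.Agent.Helper30.UB.St

/-!
# Project UB, module MAJ: the majorant
-/

set_option autoImplicit false

namespace Pool.Agent.Helper12.UB

open Polynomial Finset Pool.Agent.Helper15.FC Pool.Agent.Helper30.UB

section

variable {F : Type} [Field F] [Fintype F]

private theorem mem_Ml {m : ℕ} {f : F[X]} : f ∈ Ml F m ↔ f.Monic ∧ f.natDegree ≤ m := by
  classical
  unfold Ml
  rw [Finset.mem_biUnion]
  constructor
  · rintro ⟨i, hi, h⟩
    rw [mem_Mn] at h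
    rw [Finset.mem_range] at hi
    exact ⟨h.1, by omega⟩
  · rintro ⟨h1, h2⟩
    exact ⟨f.natDegree, Finset.mem_range.2 (by omega), mem_Mn.2 ⟨h1, rfl⟩⟩

private theorem q_gt : (1 : ℝ) < qr F := by
  have := Fintype.one_lt_card (α := F)
  show (1 : ℝ) < ((Fintype.card F : ℕ) : ℝ)
  exact_mod_cast this

private theorem q_pos (d : ℕ) : (0 : ℝ) < qr F ^ d := pow_pos (lt_trans one_pos q_gt) d

open scoped Classical in
/-- The first part of the weight. -/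
private noncomputable def W1 (m L : ℕ) (A : F[X]) : ℝ := if A ∈ Ml F L then (dk m A : ℝ) else 0

open scoped Classical in
/-- The second part of the weight. -/
private noncomputable def W2 (m L : ℕ) (Q : Finset F[X]) (A : F[X]) : ℝ :=
  ∑ U ∈ Ml F L, ∑ P ∈ Q, if lc U P = A then (dk m U : ℝ) else 0

private theorem W1_nonneg (m L : ℕ) (A : F[X]) : 0 ≤ W1 m L A := by
  unfold W1
  split_ifs
  · exact Nat.cast_nonneg _
  · exact le_refl _

private theorem W2_nonneg (m L : ℕ) (Q : Finset F[X]) (A : F[X]) : 0 ≤ W2 m L Q A := by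
  unfold W2
  refine Finset.sum_nonneg fun U _ => Finset.sum_nonneg fun P _ => ?_
  split_ifs
  · exact Nat.cast_nonneg _
  · exact le_refl _

private theorem W1_ne (m L : ℕ) (A : F[X]) (h : W1 m L A ≠ 0) : A ∈ Ml F L := by
  unfold W1 at h
  by_contra hA
  rw [if_neg hA] at h
  exact h rfl

private theorem W2_ne (m L : ℕ) (Q : Finset F[X]) (A : F[X]) (h : W2 m L Q A ≠ 0) :
    ∃ U ∈ Ml F L, ∃ P ∈ Q, lc U P = A := by
  unfold W2 at h
  obtain ⟨U, hU, h1⟩ := Finset.exists_ne_zero_of_sum_ne_zero h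
  obtain ⟨P, hP, h2⟩ := Finset.exists_ne_zero_of_sum_ne_zero h1
  refine ⟨U, hU, P, hP, ?_⟩
  by_contra hA
  rw [if_neg hA] at h2
  exact h2 rfl

private theorem lc_one (hL : StLCM) (U : F[X]) (hU : U.Monic) :
    (lc U 1).natDegree = U.natDegree := by
  obtain ⟨-, -, G, -, -, h2, h3⟩ := hL F U 1 hU monic_one
  have hG : G.natDegree = 0 := natDegree_eq_zero_of_isUnit (isUnit_of_dvd_one h2)
  rw [hG, natDegree_one] at h3
  omega

private theorem dk_one (hK : StDKS) (m : ℕ) : (dk (m + 1) (1 : F[X]) : ℝ) ≤ 1 := by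
  classical
  have h := (hK F (m + 1)).2 1 monic_one
  have h1 : nf (1 : F[X]) = 0 := by
    unfold nf
    exact UniqueFactorizationMonoid.normalizedFactors_one
  rw [h1, Multiset.card_zero, pow_zero] at h
  exact_mod_cast h

open scoped Classical in
private theorem W1_sum (hL : StLCM) (hO : StONE) (hK : StDKS) (m L n : ℕ) (g : F[X])
    (hg : g.Monic) :
    ∑ A ∈ (Ml F n).filter (fun A => g ∣ A), W1 m L A / qr F ^ A.natDegree ≤
      (dk m g : ℝ) * ((L : ℝ) + 1) ^ m / qr F ^ g.natDegree := by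
  have h := hO F m L 1 g monic_one hg isCoprime_one_right
  have h1 : ∑ U ∈ (Ml F L).filter (fun U => g ∣ U), (dk m U : ℝ) / qr F ^ (lc U 1).natDegree =
      ∑ U ∈ (Ml F L).filter (fun U => g ∣ U), (dk m U : ℝ) / qr F ^ U.natDegree := by
    refine Finset.sum_congr rfl fun U hU => ?_
    rw [lc_one hL U (mem_Ml.1 (Finset.mem_filter.1 hU).1).1]
  rw [h1, natDegree_one, pow_zero, mul_one] at h
  have h2 : ∑ A ∈ (Ml F n).filter (fun A => g ∣ A), W1 m L A / qr F ^ A.natDegree =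
      ∑ A ∈ ((Ml F n).filter (fun A => g ∣ A)).filter (fun A => A ∈ Ml F L),
        (dk m A : ℝ) / qr F ^ A.natDegree := by
    rw [Finset.sum_filter (fun A => A ∈ Ml F L)]
    refine Finset.sum_congr rfl fun A _ => ?_
    unfold W1
    by_cases hA : A ∈ Ml F L
    · rw [if_pos hA, if_pos hA]
    · rw [if_neg hA, if_neg hA, zero_div]
  rw [h2]
  refine le_trans (Finset.sum_le_sum_of_subset_of_nonneg ?_ ?_) (le_trans h ?_)
  · intro A hA
    rw [Finset.mem_filter, Finset.mem_filter] at hA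
    exact Finset.mem_filter.2 ⟨hA.2, hA.1.2⟩
  · intro A _ _
    exact div_nonneg (Nat.cast_nonneg _) (q_pos _).le
  · have h3 := dk_one (F := F) hK m
    have h4 : (0 : ℝ) ≤ (dk m g : ℝ) := Nat.cast_nonneg _
    have h5 : (0 : ℝ) ≤ ((L : ℝ) + 1) ^ m := by positivity
    refine div_le_div_of_nonneg_right ?_ (q_pos _).le
    have h6 : (dk m g : ℝ) * (dk (m + 1) (1 : F[X]) : ℝ) ≤ (dk m g : ℝ) * 1 :=
      mul_le_mul_of_nonneg_left h3 h4
    rw [mul_one] at h6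
    exact mul_le_mul_of_nonneg_right h6 h5

open scoped Classical in
private theorem W2_sum (hL : StLCM) (hO : StONE) (m L n : ℕ) (g : F[X]) (hg : g.Monic)
    (Q : Finset F[X]) (B : ℝ)
    (hQ : ∀ P ∈ Q, P.Monic ∧ IsCoprime g P ∧ (dk (m + 1) P : ℝ) ≤ B) :
    ∑ A ∈ (Ml F n).filter (fun A => g ∣ A), W2 m L Q A / qr F ^ A.natDegree ≤
      (dk m g : ℝ) * ((L : ℝ) + 1) ^ m / qr F ^ g.natDegree *
        (B * ∑ P ∈ Q, 1 / qr F ^ P.natDegree) := by
  have e1 : ∑ A ∈ (Ml F n).filter (fun A => g ∣ A), W2 m L Q A / qr F ^ A.natDegree =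
      ∑ U ∈ Ml F L, ∑ P ∈ Q, if lc U P ∈ (Ml F n).filter (fun A => g ∣ A) then
        (dk m U : ℝ) / qr F ^ (lc U P).natDegree else 0 := by
    have e2 : ∀ A ∈ (Ml F n).filter (fun A => g ∣ A), W2 m L Q A / qr F ^ A.natDegree =
        ∑ U ∈ Ml F L, ∑ P ∈ Q,
          if lc U P = A then (dk m U : ℝ) / qr F ^ A.natDegree else 0 := by
      intro A _
      unfold W2
      rw [Finset.sum_div]
      refine Finset.sum_congr rfl fun U _ => ?_
      rw [Finset.sum_div]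
      refine Finset.sum_congr rfl fun P _ => ?_
      by_cases h : lc U P = A
      · rw [if_pos h, if_pos h]
      · rw [if_neg h, if_neg h, zero_div]
    rw [Finset.sum_congr rfl e2, Finset.sum_comm]
    refine Finset.sum_congr rfl fun U _ => ?_
    rw [Finset.sum_comm]
    refine Finset.sum_congr rfl fun P _ => ?_
    rw [Finset.sum_ite_eq]
  rw [e1]
  have e3 : ∑ U ∈ Ml F L, ∑ P ∈ Q, (if lc U P ∈ (Ml F n).filter (fun A => g ∣ A) then
        (dk m U : ℝ) / qr F ^ (lc U P).natDegree else 0) ≤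
      ∑ U ∈ Ml F L, ∑ P ∈ Q, if g ∣ U then (dk m U : ℝ) / qr F ^ (lc U P).natDegree else 0 := by
    refine Finset.sum_le_sum fun U hU => Finset.sum_le_sum fun P hP => ?_
    have hnn : (0 : ℝ) ≤ (dk m U : ℝ) / qr F ^ (lc U P).natDegree :=
      div_nonneg (Nat.cast_nonneg _) (q_pos _).le
    by_cases h : lc U P ∈ (Ml F n).filter (fun A => g ∣ A)
    · have hU1 := (mem_Ml.1 hU).1
      obtain ⟨hPm, hc, -⟩ := hQ P hP
      have h1 : lc U P ∣ U * P :=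
        ((hL F U P hU1 hPm).2.1 (U * P)).2 ⟨dvd_mul_right _ _, dvd_mul_left _ _⟩
      have h2 : g ∣ U := hc.dvd_of_dvd_mul_right (dvd_trans (Finset.mem_filter.1 h).2 h1)
      rw [if_pos h, if_pos h2]
    · rw [if_neg h]
      split_ifs
      · exact hnn
      · exact le_refl _
  refine le_trans e3 ?_
  rw [Finset.sum_comm]
  have e4 : ∀ P ∈ Q, (∑ U ∈ Ml F L, if g ∣ U then
      (dk m U : ℝ) / qr F ^ (lc U P).natDegree else 0) ≤
      (dk m g : ℝ) * ((L : ℝ) + 1) ^ m / qr F ^ g.natDegree * (B * (1 / qr F ^ P.natDegree)) := by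
    intro P hP
    obtain ⟨hPm, hc, hb⟩ := hQ P hP
    rw [← Finset.sum_filter]
    refine le_trans (hO F m L P g hPm hg hc) ?_
    have h4 : (0 : ℝ) ≤ (dk m g : ℝ) := Nat.cast_nonneg _
    have h5 : (0 : ℝ) ≤ ((L : ℝ) + 1) ^ m := by positivity
    have h6 : (dk m g : ℝ) * ((L : ℝ) + 1) ^ m / qr F ^ g.natDegree *
        (B * (1 / qr F ^ P.natDegree)) =
        (dk m g : ℝ) * B * ((L : ℝ) + 1) ^ m / (qr F ^ g.natDegree * qr F ^ P.natDegree) := by
      have := (q_pos (F := F) g.natDegree).ne'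
      have := (q_pos (F := F) P.natDegree).ne'
      field_simp
    rw [h6]
    refine div_le_div_of_nonneg_right ?_ (mul_pos (q_pos _) (q_pos _)).le
    exact mul_le_mul_of_nonneg_right (mul_le_mul_of_nonneg_left hb h4) h5
  refine le_trans (Finset.sum_le_sum e4) (le_of_eq ?_)
  rw [← Finset.mul_sum, ← Finset.mul_sum]

private theorem W1_maj (m L : ℕ) (f : F[X]) (hf : f ≠ 0) :
    Tk (m + 1) L f ≤ ∑ A ∈ Dv f, W1 m L A := by
  classical
  unfold Tk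
  rw [Finset.sum_filter]
  refine Finset.sum_le_sum fun A hA => ?_
  have hA1 := ((mem_Dv hf).1 hA).1
  split_ifs with h
  · unfold W1
    rw [if_pos (mem_Ml.2 ⟨hA1, h⟩), Nat.add_sub_cancel]
  · exact W1_nonneg m L A

private theorem W2_maj (hL : StLCM) (m L : ℕ) (f : F[X]) (hf : f ≠ 0) (Q : Finset F[X]) (P : F[X])
    (hPQ : P ∈ Q) (hPm : P.Monic) (hPf : P ∣ f) :
    Tk (m + 1) L f ≤ ∑ A ∈ Dv f, W2 m L Q A := by
  classical
  have e1 : ∑ A ∈ Dv f, W2 m L Q A =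
      ∑ U ∈ Ml F L, ∑ P ∈ Q, if lc U P ∈ Dv f then (dk m U : ℝ) else 0 := by
    unfold W2
    rw [Finset.sum_comm]
    refine Finset.sum_congr rfl fun U _ => ?_
    rw [Finset.sum_comm]
    refine Finset.sum_congr rfl fun P _ => ?_
    rw [Finset.sum_ite_eq]
  rw [e1]
  have nn : ∀ (U P : F[X]), (0 : ℝ) ≤ if lc U P ∈ Dv f then (dk m U : ℝ) else 0 := by
    intro U P
    split_ifs
    · exact Nat.cast_nonneg _
    · exact le_refl _
  have e2 : ∑ U ∈ Ml F L, (if lc U P ∈ Dv f then (dk m U : ℝ) else 0) ≤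
      ∑ U ∈ Ml F L, ∑ P ∈ Q, if lc U P ∈ Dv f then (dk m U : ℝ) else 0 :=
    Finset.sum_le_sum fun U _ =>
      Finset.single_le_sum (f := fun P => if lc U P ∈ Dv f then (dk m U : ℝ) else 0)
        (fun P _ => nn U P) hPQ
  refine le_trans ?_ e2
  unfold Tk
  have e3 : ∑ g ∈ (Dv f).filter (fun g => g.natDegree ≤ L), (dk (m + 1 - 1) g : ℝ) =
      ∑ U ∈ (Dv f).filter (fun g => g.natDegree ≤ L), if lc U P ∈ Dv f then (dk m U : ℝ) else 0 := by
    refine Finset.sum_congr rfl fun U hU => ?_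
    rw [Finset.mem_filter, mem_Dv hf] at hU
    obtain ⟨h1, h2, -⟩ := hL F U P hU.1.1 hPm
    rw [if_pos ((mem_Dv hf).2 ⟨h1, (h2 f).2 ⟨hU.1.2, hPf⟩⟩), Nat.add_sub_cancel]
  rw [e3]
  refine Finset.sum_le_sum_of_subset_of_nonneg ?_ fun U _ _ => nn U P
  intro U hU
  rw [Finset.mem_filter, mem_Dv hf] at hU
  exact mem_Ml.2 ⟨hU.1.1, hU.2⟩

private theorem cop (g P : F[X]) (hg : g.Monic) (hP : P.Monic) (Z v : ℝ)
    (hgZ : (g.natDegree : ℝ) ≤ Z) (hZv : Z ≤ v) (h : ∀ p ∈ nf P, v < (p.natDegree : ℝ)) :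
    IsCoprime g P := by
  classical
  refine isCoprime_of_irreducible_dvd (fun h0 => hg.ne_zero h0.1) ?_
  intro z hz h1 h2
  obtain ⟨p, hp, ha⟩ : ∃ p ∈ nf P, Associated z p := by
    unfold nf
    exact UniqueFactorizationMonoid.exists_mem_normalizedFactors_of_dvd hP.ne_zero hz h2
  have e1 : z.natDegree = p.natDegree := natDegree_eq_of_degree_eq (degree_eq_degree_of_associated ha)
  have e2 : z.natDegree ≤ g.natDegree := natDegree_le_of_dvd h1 hg.ne_zero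
  have e3 := h p hp
  rw [← e1] at e3
  have e4 : (z.natDegree : ℝ) ≤ (g.natDegree : ℝ) := by exact_mod_cast e2
  linarith

end

/-- The number of prime factors of the `P`. -/
private noncomputable def KK (κ : ℝ) (i j : ℕ) : ℕ := ⌈(2 ^ i / (32 * κ)) * (3 / 2 : ℝ) ^ j⌉₊

private theorem KK_pos (κ : ℝ) (hκ : 0 < κ) (i j : ℕ) : 1 ≤ KK κ i j := by
  unfold KK
  exact Nat.one_le_iff_ne_zero.2 (Nat.ceil_pos.2 (by positivity)).ne'

private theorem two_pow_lt (κ Z N : ℝ) (hZ : 1 ≤ Z) (i j : ℕ) (h : Z < κ * N / 2 ^ i / 2 ^ j) :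
    (2 : ℝ) ^ i * 2 ^ j < κ * N := by
  have h1 : 1 < κ * N / 2 ^ i / 2 ^ j := lt_of_le_of_lt hZ h
  rw [lt_div_iff₀ (by positivity), one_mul, lt_div_iff₀ (by positivity)] at h1
  linarith [mul_comm ((2 : ℝ) ^ j) (2 ^ i)]

private theorem ij_lt (κ Z : ℝ) (n : ℕ) (hκ : κ ≤ 1 / 64) (hZ : 1 ≤ Z) (i j : ℕ)
    (h : Z < κ * n / 2 ^ i / 2 ^ j) : i + j < n := by
  have h1 := two_pow_lt κ Z n hZ i j h
  have h2 : κ * (n : ℝ) ≤ n := by
    have : (0 : ℝ) ≤ n := Nat.cast_nonneg n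
    nlinarith
  have h3 : ((2 ^ (i + j) : ℕ) : ℝ) < (n : ℝ) := by
    push_cast
    rw [pow_add]
    linarith
  have h4 : 2 ^ (i + j) < n := by exact_mod_cast h3
  exact lt_trans Nat.lt_two_pow_self h4

private theorem KK_le (κ Z : ℝ) (n : ℕ) (hn : 16 ≤ n) (hκ0 : 0 < κ) (hZ : 1 ≤ Z) (i j : ℕ)
    (h : Z < κ * n / 2 ^ i / 2 ^ j) : 2 * (KK κ i j : ℝ) ≤ n := by
  have h1 := two_pow_lt κ Z n hZ i j h
  have h0 : (0 : ℝ) ≤ (2 ^ i / (32 * κ)) * (3 / 2 : ℝ) ^ j := by positivity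
  have h2 : (KK κ i j : ℝ) < (2 ^ i / (32 * κ)) * (3 / 2 : ℝ) ^ j + 1 := by
    unfold KK
    exact Nat.ceil_lt_add_one h0
  have h3 : (3 / 2 : ℝ) ^ j ≤ 2 ^ j := pow_le_pow_left₀ (by norm_num) (by norm_num) j
  have h4 : (2 ^ i / (32 * κ)) * (3 / 2 : ℝ) ^ j ≤ (2 ^ i / (32 * κ)) * 2 ^ j :=
    mul_le_mul_of_nonneg_left h3 (by positivity)
  have h5 : (2 ^ i / (32 * κ)) * (2 : ℝ) ^ j = (2 ^ i * 2 ^ j) / (32 * κ) := by ring
  have h6 : ((2 : ℝ) ^ i * 2 ^ j) / (32 * κ) ≤ (κ * n) / (32 * κ) :=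
    div_le_div_of_nonneg_right h1.le (by positivity)
  have h7 : (κ * (n : ℝ)) / (32 * κ) = n / 32 := by
    field_simp
  have h8 : (16 : ℝ) ≤ n := by exact_mod_cast hn
  rw [h5] at h4
  rw [h7] at h6
  linarith

section

variable {F : Type} [Field F] [Fintype F]

open scoped Classical in
/-- The set of the `P`. -/
private noncomputable def QQ (n : ℕ) (κ : ℝ) (i j : ℕ) : Finset F[X] :=
  if Zn F n < κ * n / 2 ^ i / 2 ^ j then
    (Ml F (n / 16)).filter (fun P => PP (max (Zn F n) (κ * n / 2 ^ i / 2 ^ (j + 1)))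
      (κ * n / 2 ^ i / 2 ^ j) (KK κ i j) P)
  else ∅

private theorem mem_QQ {n : ℕ} {κ : ℝ} {i j : ℕ} {P : F[X]} (h : P ∈ QQ n κ i j) :
    Zn F n < κ * n / 2 ^ i / 2 ^ j ∧ P ∈ Ml F (n / 16) ∧
      PP (max (Zn F n) (κ * n / 2 ^ i / 2 ^ (j + 1))) (κ * n / 2 ^ i / 2 ^ j) (KK κ i j) P := by
  classical
  unfold QQ at h
  split_ifs at h with h1
  · exact ⟨h1, Finset.mem_filter.1 h⟩
  · exact absurd h (Finset.notMem_empty _)

private theorem QQ_mem {n : ℕ} {κ : ℝ} {i j : ℕ} {P : F[X]}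
    (h1 : Zn F n < κ * n / 2 ^ i / 2 ^ j) (h2 : P ∈ Ml F (n / 16))
    (h3 : PP (max (Zn F n) (κ * n / 2 ^ i / 2 ^ (j + 1))) (κ * n / 2 ^ i / 2 ^ j) (KK κ i j) P) :
    P ∈ QQ n κ i j := by
  classical
  unfold QQ
  rw [if_pos h1]
  exact Finset.mem_filter.2 ⟨h2, h3⟩

private theorem Zn_rpow (n : ℕ) (hn : 1 ≤ n) : qr F ^ (Zn F n) = (n : ℝ) := by
  have h : Zn F n = Real.logb (qr F) n := rfl
  rw [h]
  exact Real.rpow_logb (lt_trans one_pos q_gt) q_gt.ne' (by exact_mod_cast hn)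

private theorem Zn_ge (n : ℕ) (hn : Fintype.card F ≤ n) : 1 ≤ Zn F n := by
  have h1 : 0 < Real.log (qr F) := Real.log_pos q_gt
  have h2 : qr F ≤ (n : ℝ) := by
    show ((Fintype.card F : ℕ) : ℝ) ≤ n
    exact_mod_cast hn
  unfold Zn
  rw [one_le_div h1]
  exact Real.log_le_log (lt_trans one_pos q_gt) h2

private theorem QQ_sum (hS : StSAV) (n : ℕ) (hn : 16 ≤ n) (hZ : 1 ≤ Zn F n) (κ : ℝ) (hκ0 : 0 < κ)
    (k : ℝ) (hk : 0 ≤ k) (i j : ℕ) :
    k ^ KK κ i j * ∑ P ∈ QQ (F := F) n κ i j, 1 / qr F ^ P.natDegree ≤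
      (k * Real.exp 8 / (KK κ i j : ℝ)) ^ KK κ i j := by
  have hK := KK_pos κ hκ0 i j
  by_cases h : Zn F n < κ * n / 2 ^ i / 2 ^ j
  · have h1 := hS F (max (Zn F n) (κ * n / 2 ^ i / 2 ^ (j + 1))) (κ * n / 2 ^ i / 2 ^ j)
      (KK κ i j) hK (le_trans hZ (le_max_left _ _)) ?_ ?_ ?_ (QQ n κ i j)
      (fun P hP => (mem_QQ hP).2.2)
    · have h2 : k * Real.exp 8 / (KK κ i j : ℝ) = k * (Real.exp 8 / (KK κ i j : ℝ)) := by ring
      rw [h2, mul_pow]
      exact mul_le_mul_of_nonneg_left h1 (pow_nonneg hk _)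
    · refine max_le h.le ?_
      rw [pow_succ, ← div_div]
      have : 0 ≤ κ * (n : ℝ) / 2 ^ i / 2 ^ j := by positivity
      linarith
    · have h3 : κ * (n : ℝ) / 2 ^ i / 2 ^ j = 2 * (κ * n / 2 ^ i / 2 ^ (j + 1)) := by
        rw [pow_succ, ← div_div]
        ring
      rw [h3]
      exact mul_le_mul_of_nonneg_left (le_max_right _ _) (by norm_num)
    · have h4 := KK_le κ (Zn F n) n hn hκ0 hZ i j h
      rw [← Zn_rpow (F := F) n (by omega)] at h4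
      exact le_trans h4 (Real.rpow_le_rpow_of_exponent_le q_gt.le (le_max_left _ _))
  · have h1 : QQ (F := F) n κ i j = ∅ := by
      unfold QQ
      rw [if_neg h]
    rw [h1, Finset.sum_empty, mul_zero]
    exact pow_nonneg (div_nonneg (mul_nonneg hk (Real.exp_pos _).le) (Nat.cast_nonneg _)) _

end

/-- MAJ. -/
theorem hMAJ (hT : StDKT) (hL : StLCM) (hO : StONE) (hS : StSAV) (hD : StDIC) (hC : StCON)
    (hK : StDKS) : Pool.Agent.Helper30.UB.StMAJ := by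
  classical
  intro k hk
  obtain ⟨m, rfl⟩ : ∃ m, k = m + 1 := ⟨k - 1, by omega⟩
  obtain ⟨κ, hκ0, hκ1, hcon⟩ := hC (m + 1) hk
  have hkp : (0 : ℝ) < ((m + 1 : ℕ) : ℝ) := by positivity
  refine ⟨((m + 1 : ℕ) : ℝ) ^ (1 / κ) + 6, by positivity, ?_⟩
  intro F _ _
  refine ⟨max 16 (Fintype.card F), fun n hn => ?_⟩
  have hn16 : 16 ≤ n := le_trans (le_max_left _ _) hn
  have hZ : 1 ≤ Zn F n := Zn_ge n (le_trans (le_max_right _ _) hn)
  have hn0 : (0 : ℝ) < (n : ℝ) := by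
    have : 0 < n := by omega
    exact_mod_cast this
  have cpos : ∀ x : ℝ, (0 : ℝ) ≤ ((m + 1 : ℕ) : ℝ) ^ x := fun x => (Real.rpow_pos_of_pos hkp x).le
  have nn2 : ∀ A : F[X], 0 ≤ ∑ i ∈ range n, ∑ j ∈ range n,
      ((m + 1 : ℕ) : ℝ) ^ ((2 : ℝ) ^ (i + 1) / κ) * W2 m (n / 4) (QQ n κ i j) A := fun A =>
    Finset.sum_nonneg fun i _ => Finset.sum_nonneg fun j _ =>
      mul_nonneg (cpos _) (W2_nonneg _ _ _ _)
  have nn1 : ∀ A : F[X], 0 ≤ ((m + 1 : ℕ) : ℝ) ^ (1 / κ) * W1 m (n / 4) A := fun A =>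
    mul_nonneg (cpos _) (W1_nonneg _ _ _)
  refine ⟨fun A => ((m + 1 : ℕ) : ℝ) ^ (1 / κ) * W1 m (n / 4) A + ∑ i ∈ range n, ∑ j ∈ range n,
    ((m + 1 : ℕ) : ℝ) ^ ((2 : ℝ) ^ (i + 1) / κ) * W2 m (n / 4) (QQ n κ i j) A,
    fun A => add_nonneg (nn1 A) (nn2 A), ?_, ?_, ?_⟩
  · intro A hA
    beta_reduce at hA
    by_cases h1 : W1 m (n / 4) A = 0
    · rw [h1, mul_zero, zero_add] at hA
      obtain ⟨i, -, h2⟩ := Finset.exists_ne_zero_of_sum_ne_zero hA
      obtain ⟨j, -, h3⟩ := Finset.exists_ne_zero_of_sum_ne_zero h2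
      obtain ⟨U, hU, P, hP, rfl⟩ := W2_ne _ _ _ _ (right_ne_zero_of_mul h3)
      obtain ⟨hU1, hU2⟩ := mem_Ml.1 hU
      obtain ⟨hP1, hP2⟩ := mem_Ml.1 (mem_QQ hP).2.1
      obtain ⟨h4, -, G, -, -, -, h5⟩ := hL F U P hU1 hP1
      refine ⟨h4, ?_⟩
      omega
    · obtain ⟨h2, h3⟩ := mem_Ml.1 (W1_ne _ _ _ h1)
      exact ⟨h2, by omega⟩
  · intro g hg hgZ
    have hX0 : 0 ≤ (dk m g : ℝ) * (((n / 4 : ℕ) : ℝ) + 1) ^ m / qr F ^ g.natDegree :=
      div_nonneg (mul_nonneg (Nat.cast_nonneg _) (by positivity)) (q_pos _).le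
    have hX : (dk m g : ℝ) * (((n / 4 : ℕ) : ℝ) + 1) ^ m / qr F ^ g.natDegree ≤
        (dk (m + 1) g : ℝ) / qr F ^ g.natDegree * (n : ℝ) ^ (m + 1 - 1) := by
      have h1 : (dk m g : ℝ) ≤ (dk (m + 1) g : ℝ) := by
        have h2 := (hT F).1 m g hg
        rw [h2]
        have h3 : g ∈ Dv g := (mem_Dv hg.ne_zero).2 ⟨hg, dvd_refl g⟩
        exact_mod_cast Finset.single_le_sum (f := fun e => dk m e) (fun _ _ => Nat.zero_le _) h3
      have h4 : (((n / 4 : ℕ) : ℝ) + 1) ^ m ≤ (n : ℝ) ^ m := by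
        refine pow_le_pow_left₀ (by positivity) ?_ m
        have : n / 4 + 1 ≤ n := by omega
        exact_mod_cast this
      rw [Nat.add_sub_cancel, div_mul_eq_mul_div]
      refine div_le_div_of_nonneg_right ?_ (q_pos _).le
      exact mul_le_mul h1 h4 (by positivity) (Nat.cast_nonneg _)
    set X : ℝ := (dk m g : ℝ) * (((n / 4 : ℕ) : ℝ) + 1) ^ m / qr F ^ g.natDegree with hXdef
    have e1 : ∑ A ∈ (Ml F n).filter (fun A => g ∣ A),
        (((m + 1 : ℕ) : ℝ) ^ (1 / κ) * W1 m (n / 4) A + ∑ i ∈ range n, ∑ j ∈ range n,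
          ((m + 1 : ℕ) : ℝ) ^ ((2 : ℝ) ^ (i + 1) / κ) * W2 m (n / 4) (QQ n κ i j) A) /
            qr F ^ A.natDegree =
        ((m + 1 : ℕ) : ℝ) ^ (1 / κ) * ∑ A ∈ (Ml F n).filter (fun A => g ∣ A),
          W1 m (n / 4) A / qr F ^ A.natDegree +
        ∑ i ∈ range n, ∑ j ∈ range n, ((m + 1 : ℕ) : ℝ) ^ ((2 : ℝ) ^ (i + 1) / κ) *
          ∑ A ∈ (Ml F n).filter (fun A => g ∣ A),
            W2 m (n / 4) (QQ n κ i j) A / qr F ^ A.natDegree := by
      have e2 : ∀ A ∈ (Ml F n).filter (fun A => g ∣ A),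
          (((m + 1 : ℕ) : ℝ) ^ (1 / κ) * W1 m (n / 4) A + ∑ i ∈ range n, ∑ j ∈ range n,
          ((m + 1 : ℕ) : ℝ) ^ ((2 : ℝ) ^ (i + 1) / κ) * W2 m (n / 4) (QQ n κ i j) A) /
            qr F ^ A.natDegree =
          ((m + 1 : ℕ) : ℝ) ^ (1 / κ) * (W1 m (n / 4) A / qr F ^ A.natDegree) +
            ∑ i ∈ range n, ∑ j ∈ range n, ((m + 1 : ℕ) : ℝ) ^ ((2 : ℝ) ^ (i + 1) / κ) *
              (W2 m (n / 4) (QQ n κ i j) A / qr F ^ A.natDegree) := by
        intro A _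
        rw [add_div, Finset.sum_div, mul_div_assoc]
        congr 1
        refine Finset.sum_congr rfl fun i _ => ?_
        rw [Finset.sum_div]
        refine Finset.sum_congr rfl fun j _ => ?_
        rw [mul_div_assoc]
      rw [Finset.sum_congr rfl e2, Finset.sum_add_distrib, ← Finset.mul_sum, Finset.sum_comm]
      congr 1
      refine Finset.sum_congr rfl fun i _ => ?_
      rw [Finset.sum_comm]
      refine Finset.sum_congr rfl fun j _ => ?_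
      rw [← Finset.mul_sum]
    have e3 : ((m + 1 : ℕ) : ℝ) ^ (1 / κ) * ∑ A ∈ (Ml F n).filter (fun A => g ∣ A),
          W1 m (n / 4) A / qr F ^ A.natDegree ≤ ((m + 1 : ℕ) : ℝ) ^ (1 / κ) * X :=
      mul_le_mul_of_nonneg_left (W1_sum hL hO hK m (n / 4) n g hg) (cpos _)
    have e4 : ∑ i ∈ range n, ∑ j ∈ range n, ((m + 1 : ℕ) : ℝ) ^ ((2 : ℝ) ^ (i + 1) / κ) *
          ∑ A ∈ (Ml F n).filter (fun A => g ∣ A),
            W2 m (n / 4) (QQ n κ i j) A / qr F ^ A.natDegree ≤ 6 * X := by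
      have e5 : ∑ i ∈ range n, ∑ j ∈ range n, ((m + 1 : ℕ) : ℝ) ^ ((2 : ℝ) ^ (i + 1) / κ) *
          ∑ A ∈ (Ml F n).filter (fun A => g ∣ A),
            W2 m (n / 4) (QQ n κ i j) A / qr F ^ A.natDegree ≤
          ∑ i ∈ range n, ∑ j ∈ range n, (((m + 1 : ℕ) : ℝ) ^ ((2 : ℝ) ^ (i + 1) / κ) *
            (((m + 1 : ℕ) : ℝ) * Real.exp 8 / (KK κ i j : ℝ)) ^ KK κ i j) * X := by
        refine Finset.sum_le_sum fun i _ => Finset.sum_le_sum fun j _ => ?_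
        rw [mul_assoc]
        refine mul_le_mul_of_nonneg_left ?_ (cpos _)
        have h1 := W2_sum hL hO m (n / 4) n g hg (QQ n κ i j)
          (((m + 1 : ℕ) : ℝ) ^ KK κ i j) (by
            intro P hP
            obtain ⟨h1, h2, h3⟩ := mem_QQ hP
            refine ⟨h3.1, cop g P hg h3.1 (Zn F n) _ hgZ (le_max_left _ _)
              (fun p hp => (h3.2.2 p hp).1), ?_⟩
            have h4 := (hK F (m + 1)).2 P h3.1
            rw [h3.2.1] at h4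
            exact_mod_cast h4)
        have h2 := QQ_sum (F := F) hS n hn16 hZ κ hκ0 ((m + 1 : ℕ) : ℝ) hkp.le i j
        refine le_trans h1 ?_
        rw [← hXdef, mul_comm _ X]
        exact mul_le_mul_of_nonneg_left h2 hX0
      refine le_trans e5 ?_
      simp_rw [← Finset.sum_mul]
      exact mul_le_mul_of_nonneg_right (hcon n n) hX0
    calc _ ≤ ((m + 1 : ℕ) : ℝ) ^ (1 / κ) * X + 6 * X := by
          rw [e1]
          exact add_le_add e3 e4
      _ = (((m + 1 : ℕ) : ℝ) ^ (1 / κ) + 6) * X := by ring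
      _ ≤ (((m + 1 : ℕ) : ℝ) ^ (1 / κ) + 6) *
          ((dk (m + 1) g : ℝ) / qr F ^ g.natDegree * (n : ℝ) ^ (m + 1 - 1)) :=
          mul_le_mul_of_nonneg_left hX (by positivity)
      _ = _ := by ring
  · intro f hf hDD
    have hf0 : f ≠ 0 := (mem_Mn.1 hf).1.ne_zero
    show (dk (m + 1) f : ℝ) ≤ ∑ A ∈ Dv f, (((m + 1 : ℕ) : ℝ) ^ (1 / κ) * W1 m (n / 4) A +
      ∑ i ∈ range n, ∑ j ∈ range n,
        ((m + 1 : ℕ) : ℝ) ^ ((2 : ℝ) ^ (i + 1) / κ) * W2 m (n / 4) (QQ n κ i j) A)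
    rw [Finset.sum_add_distrib]
    rcases hD F n κ f hn16 hκ0 hκ1 hZ hf hDD with h | ⟨i, j, h1, h2, P, h3, h4, h5⟩
    · have h6 := (hT F).2 (m + 1) n (n / 4) (κ * n) f hk (mul_pos hκ0 hn0) hf h
      have h7 : (n : ℝ) / (κ * n) = 1 / κ := by
        field_simp
      rw [h7] at h6
      have h8 : ((m + 1 : ℕ) : ℝ) ^ (1 / κ) * Tk (m + 1) (n / 4) f ≤
          ∑ A ∈ Dv f, ((m + 1 : ℕ) : ℝ) ^ (1 / κ) * W1 m (n / 4) A := by
        rw [← Finset.mul_sum]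
        exact mul_le_mul_of_nonneg_left (W1_maj m (n / 4) f hf0) (cpos _)
      have h9 := Finset.sum_nonneg (s := Dv f) fun A _ => nn2 A
      linarith
    · have hij := ij_lt κ (Zn F n) n hκ1 hZ i j h1
      have hzp : 0 < κ * (n : ℝ) / 2 ^ i / 2 := by positivity
      have h6 := (hT F).2 (m + 1) n (n / 4) (κ * n / 2 ^ i / 2) f hk hzp hf h2
      have h7 : (n : ℝ) / (κ * n / 2 ^ i / 2) = (2 : ℝ) ^ (i + 1) / κ := by
        rw [pow_succ]
        field_simp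
      rw [h7] at h6
      have hPQ : P ∈ QQ n κ i j := QQ_mem h1 (mem_Ml.2 ⟨h5.1, by omega⟩) h5
      have h8 : ((m + 1 : ℕ) : ℝ) ^ ((2 : ℝ) ^ (i + 1) / κ) * Tk (m + 1) (n / 4) f ≤
          ∑ A ∈ Dv f, ((m + 1 : ℕ) : ℝ) ^ ((2 : ℝ) ^ (i + 1) / κ) *
            W2 m (n / 4) (QQ n κ i j) A := by
        rw [← Finset.mul_sum]
        exact mul_le_mul_of_nonneg_left (W2_maj hL m (n / 4) f hf0 _ P hPQ h5.1 h3) (cpos _)
      have h9 : ∑ A ∈ Dv f, ((m + 1 : ℕ) : ℝ) ^ ((2 : ℝ) ^ (i + 1) / κ) *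
            W2 m (n / 4) (QQ n κ i j) A ≤ ∑ A ∈ Dv f, ∑ i ∈ range n, ∑ j ∈ range n,
            ((m + 1 : ℕ) : ℝ) ^ ((2 : ℝ) ^ (i + 1) / κ) * W2 m (n / 4) (QQ n κ i j) A := by
        refine Finset.sum_le_sum fun A _ => ?_
        refine le_trans ?_ (Finset.single_le_sum (f := fun i => ∑ j ∈ range n,
          ((m + 1 : ℕ) : ℝ) ^ ((2 : ℝ) ^ (i + 1) / κ) * W2 m (n / 4) (QQ n κ i j) A)
          (fun i _ => Finset.sum_nonneg fun j _ => mul_nonneg (cpos _) (W2_nonneg _ _ _ _))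
          (Finset.mem_range.2 (by omega : i < n)))
        exact Finset.single_le_sum (f := fun j =>
          ((m + 1 : ℕ) : ℝ) ^ ((2 : ℝ) ^ (i + 1) / κ) * W2 m (n / 4) (QQ n κ i j) A)
          (fun j _ => mul_nonneg (cpos _) (W2_nonneg _ _ _ _))
          (Finset.mem_range.2 (by omega : j < n))
      have h10 := Finset.sum_nonneg (s := Dv f) fun A _ => nn1 A
      linarith

end Pool.Agent.Helper12.UB
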